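import Pool.Agent.helper68.FY.Spec

/-!
# Project fy, row CUT: cutting the set `B` into pieces
-/

set_option autoImplicit false

namespace Pool.Agent.helper68.FY

theorem CUT_add (p : ℕ) [Fact p.Prime] (χ : MulChar (ZMod p) ℂ) (β : ZMod p → ℂ) (Q : ℕ)
    (A B : Finset (ZMod p)) (h : A ⊆ B) : S1 p χ B β Q ≤ S1 p χ A β Q + S1 p χ (B \ A) β Q := by
  unfold S1
  rw [← Finset.sum_add_distrib]
  refine Finset.sum_le_sum fun x _ => ?_
  rw [← Finset.sum_sdiff h, add_comm]
  exact norm_add_le _ _

theorem CUT : CUT_stmt := by
  intro p _ χ β Q m c hm h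
  have key : ∀ n : ℕ, ∀ B : Finset (ZMod p), B.card = n → m ≤ B.card → S1 p χ B β Q ≤ c * B.card := by
    intro n
    induction n using Nat.strong_induction_on with
    | _ n ih =>
      intro B hB hmB
      by_cases h2 : B.card ≤ 2 * m
      · exact h B hmB h2
      · obtain ⟨A, hAB, hA⟩ := Finset.exists_subset_card_eq hmB
        have hc : (B \ A).card = B.card - m := by rw [Finset.card_sdiff_of_subset hAB, hA]
        have h3 := h A (by omega) (by omega)
        have h4 := ih (B \ A).card (by omega) (B \ A) rfl (by omega)
        have h5 := CUT_add p χ β Q A B hAB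
        have h6 : ((B \ A).card : ℝ) + A.card = B.card := by
          rw [← Nat.cast_add]
          congr 1
          omega
        calc S1 p χ B β Q ≤ c * A.card + c * (B \ A).card := le_trans h5 (add_le_add h3 h4)
          _ = c * B.card := by rw [← h6]; ring
  intro B hB
  exact key _ B rfl hB

end Pool.Agent.helper68.FY
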